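import Mathlib

/-! A Noetherian base of rank `ω + 1` no subfamily of which is a base of rank at most `ω`. -/

namespace Pool.Agent.Results.MP_5675d3_gt.Counter

open Set Ordinal TopologicalSpace

variable {X : Type}

/-- Noetherian families -/
def Noeth (𝒜 : Set (Set X)) : Prop :=
  𝒜.Nonempty ∧ ∅ ∉ 𝒜 ∧ ¬ ∃ A : ℕ → Set X, (∀ n, A n ∈ 𝒜) ∧ ∀ n, A n ⊂ A (n + 1)

/-- the layers, by transfinite recursion -/
noncomputable def layer (𝒜 : Set (Set X)) : Ordinal.{0} → Set (Set X) :=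
  Ordinal.lt_wf.fix fun i L => {A | Maximal (fun B => B ∈ 𝒜 ∧ ∀ j (h : j < i), B ∉ L j h) A}

/-- the rank of a Noetherian family -/
noncomputable def rank (𝒜 : Set (Set X)) : Ordinal.{0} := sInf {α | 𝒜 = ⋃ i < α, layer 𝒜 i}

theorem layer_eq (𝒜 : Set (Set X)) (i : Ordinal.{0}) : layer 𝒜 i =
    {A | Maximal (fun B => B ∈ 𝒜 ∧ ∀ j < i, B ∉ layer 𝒜 j) A} := by
  rw [layer, WellFounded.fix_eq]

/-- the strict superset relation inside a family -/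
def R (𝒜 : Set (Set X)) (B A : Set X) : Prop := B ∈ 𝒜 ∧ A ∈ 𝒜 ∧ A ⊂ B

theorem mem_layer {𝒜 : Set (Set X)} [IsWellFounded _ (R 𝒜)] (i : Ordinal.{0}) :
    ∀ A, A ∈ layer 𝒜 i ↔ A ∈ 𝒜 ∧ IsWellFounded.rank (R 𝒜) A = i := by
  induction i using Ordinal.lt_wf.induction with
  | _ i ih =>
  have h1 : ∀ B, (B ∈ 𝒜 ∧ ∀ j < i, B ∉ layer 𝒜 j) ↔
      B ∈ 𝒜 ∧ i ≤ IsWellFounded.rank (R 𝒜) B := fun B => and_congr_right fun hB =>
    ⟨fun h => not_lt.1 fun h' => h _ h' ((ih _ h' B).2 ⟨hB, rfl⟩),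
      fun h j hj h' => not_lt.2 h (((ih j hj B).1 h').2 ▸ hj)⟩
  intro A
  rw [layer_eq]
  simp only [h1]
  constructor
  · intro h
    refine ⟨h.1.1, le_antisymm ?_ h.1.2⟩
    rw [IsWellFounded.rank_eq]
    refine Ordinal.iSup_le fun B => Order.succ_le_of_lt (not_le.1 fun h' => ?_)
    exact B.2.2.2.2 (h.2 ⟨B.2.1, h'⟩ B.2.2.2.1)
  · rintro ⟨hA, rfl⟩
    refine ⟨⟨hA, le_rfl⟩, fun B hB hAB => ?_⟩
    by_contra hn
    exact not_lt.2 hB.2 (IsWellFounded.rank_lt_of_rel (r := R 𝒜) ⟨hB.1, hA, hAB, hn⟩)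

theorem rank_mem {𝒜 : Set (Set X)} [IsWellFounded _ (R 𝒜)] (α : Ordinal.{0}) :
    𝒜 = ⋃ i < α, layer 𝒜 i ↔ ∀ A ∈ 𝒜, IsWellFounded.rank (R 𝒜) A < α := by
  constructor
  · intro h A hA
    obtain ⟨i, hi, h'⟩ := mem_iUnion₂.1 (h ▸ hA : A ∈ ⋃ i < α, layer 𝒜 i)
    exact ((mem_layer i A).1 h').2 ▸ hi
  · intro h
    refine subset_antisymm (fun A hA => ?_) ?_
    · exact mem_iUnion₂.2 ⟨IsWellFounded.rank (R 𝒜) A, h A hA, (mem_layer _ A).2 ⟨hA, rfl⟩⟩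
    exact iUnion₂_subset fun i _ A hA => ((mem_layer i A).1 hA).1

abbrev Y : Type := ℕ → Bool

def cyl (x : Y) (n : ℕ) : Set Y := {y | ∀ i < n, y i = x i}

def P : Set Y := {x | ∀ k, ∃ i ≥ k, x i = true}

def 𝓑 : Set (Set Y) := {B | (∃ x n, B = cyl x n) ∨ ∃ x ∈ P, B = {x}}

theorem self_mem (x : Y) (n : ℕ) : x ∈ cyl x n := fun _ _ => rfl

theorem cyl_eq {x y : Y} {n : ℕ} (h : y ∈ cyl x n) : cyl x n = cyl y n := by
  ext z
  exact ⟨fun hz i hi => (hz i hi).trans (h i hi).symm, fun hz i hi => (hz i hi).trans (h i hi)⟩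

theorem cyl_anti (x : Y) {n m : ℕ} (h : n ≤ m) : cyl x m ⊆ cyl x n :=
  fun _ hz i hi => hz i (hi.trans_le h)

theorem flip_mem (x : Y) (n : ℕ) : Function.update x n (!x n) ∈ cyl x n :=
  fun _ hi => Function.update_of_ne hi.ne _ _

theorem cyl_le {x y : Y} {n m : ℕ} (h : cyl x n ⊆ cyl y m) : m ≤ n := by
  by_contra hn
  have h1 := h (self_mem x n) n (not_le.1 hn)
  have h2 := h (flip_mem x n) n (not_le.1 hn)
  simp [h1] at h2

theorem cyl_ns {x y : Y} {n : ℕ} : ¬ cyl x n ⊆ {y} := fun h => by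
  have := congrFun ((h (flip_mem x n)).trans (h (self_mem x n)).symm) n
  simp at this

open Classical in
noncomputable def g (B : Set Y) : Ordinal.{0} :=
  if h : ∃ n, ∃ x, B = cyl x n then (h.choose : ℕ) else ω

theorem g_cyl (x : Y) (n : ℕ) : g (cyl x n) = n := by
  have h : ∃ m, ∃ y, cyl x n = cyl y m := ⟨n, x, rfl⟩
  rw [g, dif_pos h]
  obtain ⟨y, hy⟩ := h.choose_spec
  rw [le_antisymm (cyl_le hy.le) (cyl_le hy.ge)]

theorem g_pt (x : Y) : g {x} = ω := by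
  rw [g, dif_neg]
  rintro ⟨n, y, h⟩
  exact cyl_ns h.ge

theorem g_lt {A B : Set Y} (hA : A ∈ 𝓑) (hB : B ∈ 𝓑) (h : A ⊂ B) : g B < g A := by
  rcases hB with ⟨y, m, rfl⟩ | ⟨y, -, rfl⟩
  · rcases hA with ⟨x, n, rfl⟩ | ⟨x, -, rfl⟩
    · rw [g_cyl, g_cyl, Nat.cast_lt]
      refine lt_of_le_of_ne (cyl_le h.1) ?_
      rintro rfl
      exact h.ne (cyl_eq (h.1 (self_mem x m))).symm
    · rw [g_cyl, g_pt]
      exact natCast_lt_omega0 m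
  · rcases hA with ⟨x, n, rfl⟩ | ⟨x, -, rfl⟩
    · exact (cyl_ns h.1).elim
    · exact absurd (congrArg _ (h.1 rfl)) h.ne

theorem g_le {A : Set Y} (hA : A ∈ 𝓑) : g A ≤ ω := by
  rcases hA with ⟨x, n, rfl⟩ | ⟨x, -, rfl⟩
  · exact g_cyl x n ▸ (natCast_lt_omega0 n).le
  · exact (g_pt x).le

theorem wf {𝒜 : Set (Set Y)} (h : 𝒜 ⊆ 𝓑) : IsWellFounded _ (R 𝒜) :=
  ⟨Subrelation.wf (fun hr => g_lt (h hr.2.1) (h hr.1) hr.2.2) (InvImage.wf g Ordinal.lt_wf)⟩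

theorem basis : @IsTopologicalBasis Y (generateFrom 𝓑) 𝓑 := by
  refine @IsTopologicalBasis.mk Y (generateFrom 𝓑) 𝓑 ?_ ?_ rfl
  · rintro _ (⟨x, n, rfl⟩ | ⟨x, hx, rfl⟩) _ (⟨y, m, rfl⟩ | ⟨y, hy, rfl⟩) z hz
    · refine ⟨cyl z (max n m), Or.inl ⟨_, _, rfl⟩, self_mem _ _, ?_⟩
      rw [cyl_eq hz.1, cyl_eq hz.2]
      exact subset_inter (cyl_anti _ (le_max_left _ _)) (cyl_anti _ (le_max_right _ _))
    · exact ⟨{y}, Or.inr ⟨y, hy, rfl⟩, hz.2, fun w hw => (hw.trans hz.2.symm) ▸ hz⟩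
    · exact ⟨{x}, Or.inr ⟨x, hx, rfl⟩, hz.1, fun w hw => (hw.trans hz.1.symm) ▸ hz⟩
    · exact ⟨{x}, Or.inr ⟨x, hx, rfl⟩, hz.1, fun w hw => (hw.trans hz.1.symm) ▸ hz⟩
  · exact eq_univ_of_forall fun x => ⟨cyl x 0, Or.inl ⟨_, _, rfl⟩, self_mem _ _⟩

theorem key {𝒜 : Set (Set Y)} (h : 𝒜 ⊆ 𝓑) (hb : @IsTopologicalBasis Y (generateFrom 𝓑) 𝒜) :
    rank 𝒜 = ω + 1 := by
  have := wf h
  have h1 : ∀ A, IsWellFounded.rank (R 𝒜) A ≤ g A := fun A => by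
    induction A using (wf h).wf.induction with
    | _ A ih =>
    rw [IsWellFounded.rank_eq]
    exact Ordinal.iSup_le fun B => Order.succ_le_of_lt
      ((ih _ B.2).trans_lt (g_lt (h B.2.2.1) (h B.2.1) B.2.2.2))
  have hsub : ∀ B ∈ 𝓑, ∀ y ∈ B, ∃ A ∈ 𝒜, y ∈ A ∧ A ⊆ B := fun B hB y hy =>
    @IsTopologicalBasis.exists_subset_of_mem_open Y (generateFrom 𝓑) 𝒜 hb y B hy
      (isOpen_generateFrom_of_mem hB)
  have h2 : ∀ (p : Y × ℕ), ∃ q : Y × ℕ, p.2 < q.2 ∧ q.1 ∈ cyl p.1 p.2 ∧ q.1 p.2 = true ∧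
      cyl q.1 q.2 ∈ 𝒜 := by
    rintro ⟨x, n⟩
    let y : Y := fun i => if i < n then x i else decide (i = n)
    obtain ⟨A, hA, h3, h4⟩ := hsub (cyl y (n + 1)) (Or.inl ⟨_, _, rfl⟩) y (self_mem _ _)
    rcases h hA with ⟨z, m, rfl⟩ | ⟨z, hz, rfl⟩
    · exact ⟨(y, m), cyl_le h4, fun i hi => if_pos hi, by simp [y], cyl_eq h3 ▸ hA⟩
    · obtain ⟨i, hi, h5⟩ := hz (n + 1)
      rw [← mem_singleton_iff.1 h3] at h5
      simp only [y] at h5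
      rw [if_neg (by omega)] at h5
      have := of_decide_eq_true h5
      omega
  choose nx a1 a2 a3 a4 using h2
  let p : ℕ → Y × ℕ := fun k => nx^[k] (fun _ => true, 0)
  have hp : ∀ k, p (k + 1) = nx (p k) := fun k => Function.iterate_succ_apply' _ _ _
  have hm : StrictMono fun k => (p k).2 := strictMono_nat_of_lt_succ fun k => hp k ▸ a1 _
  have hc : ∀ k l, k ≤ l → (p l).1 ∈ cyl (p k).1 (p k).2 := fun k l hkl => by
    induction l, hkl using Nat.le_induction with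
    | base => exact self_mem _ _
    | succ l hl ih =>
      rw [hp, cyl_eq ih]
      exact cyl_anti _ (hm.monotone hl) (a2 _)
  let x : Y := fun i => (p (i + 1)).1 i
  have hx : ∀ k, x ∈ cyl (p k).1 (p k).2 := fun k i hi => by
    rcases le_total k (i + 1) with h3 | h3
    · exact hc _ _ h3 i hi
    · exact (hc _ _ h3 i (hm.le_apply (x := i + 1))).symm
  have hP : x ∈ P := fun k => ⟨(p k).2, hm.le_apply, by
    rw [hx (k + 1) _ (hm (Nat.lt_succ_self k)), hp]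
    exact a3 _⟩
  have hA : ∀ k, cyl x (p (k + 1)).2 ∈ 𝒜 := fun k => by
    rw [← cyl_eq (hx _), hp]
    exact a4 _
  have hs : {x} ∈ 𝒜 := by
    obtain ⟨A, h3, h4, h5⟩ := hsub {x} (Or.inr ⟨x, hP, rfl⟩) x rfl
    rwa [← subset_antisymm h5 (singleton_subset_iff.2 h4)]
  have h3 : ∀ k : ℕ, (k : Ordinal) ≤ IsWellFounded.rank (R 𝒜) (cyl x (p (k + 1)).2) := fun k => by
    induction k with
    | zero => simp
    | succ k ih =>
      rw [Nat.cast_succ]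
      refine Order.add_one_le_of_lt (ih.trans_lt (IsWellFounded.rank_lt_of_rel (r := R 𝒜)
        ⟨hA _, hA _, cyl_anti _ (hm (Nat.lt_succ_self _)).le, fun h4 => ?_⟩))
      exact not_lt.2 (cyl_le h4) (hm (Nat.lt_succ_self _))
  have h4 : ω ≤ IsWellFounded.rank (R 𝒜) {x} := omega0_le.2 fun k =>
    (h3 k).trans (IsWellFounded.rank_lt_of_rel (r := R 𝒜)
      ⟨hA _, hs, singleton_subset_iff.2 (self_mem _ _), cyl_ns⟩).le
  refine IsLeast.csInf_eq ⟨(rank_mem _).2 fun A hA => ?_, fun α hα => ?_⟩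
  · exact Order.lt_add_one_iff.2 ((h1 A).trans (g_le (h hA)))
  · exact Order.add_one_le_of_lt (h4.trans_lt ((rank_mem _).1 hα _ hs))

theorem result : ∃ (X : Type) (_ : TopologicalSpace X) (𝓑 : Set (Set X)),
    IsTopologicalBasis 𝓑 ∧ Noeth 𝓑 ∧ rank 𝓑 ≠ (rank 𝓑).card.ord ∧
      ∀ 𝓑' ⊆ 𝓑, IsTopologicalBasis 𝓑' → Noeth 𝓑' → ¬ rank 𝓑' ≤ (rank 𝓑).card.ord := by
  have h1 : (rank 𝓑).card.ord = ω := by
    rw [key subset_rfl basis]
    simp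
  refine ⟨Y, generateFrom 𝓑, 𝓑, basis, ⟨⟨_, Or.inl ⟨fun _ => true, 0, rfl⟩⟩, ?_, ?_⟩, ?_,
    fun 𝒜 h hb _ => ?_⟩
  · rintro (⟨x, n, h⟩ | ⟨x, -, h⟩)
    · exact (h ▸ self_mem x n : x ∈ (∅ : Set Y))
    · exact singleton_ne_empty x h.symm
  · rintro ⟨A, h2, h3⟩
    exact (RelEmbedding.natGT (r := (· < ·)) (fun n => g (A n)) fun n =>
      g_lt (h2 _) (h2 _) (h3 n)).not_wellFounded Ordinal.lt_wf
  · rw [h1, key subset_rfl basis]
    exact (lt_add_one ω).ne'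
  · rw [h1, key h hb]
    exact not_le.2 (lt_add_one ω)

end Pool.Agent.Results.MP_5675d3_gt.Counter
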